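import Mathlib
import Pool.Agent.Helper82.Speed.Algo
import Pool.Agent.PolyTime.Partition

/-!
# Total flow time under an energy budget: an efficient algorithm exists only if P = NP

For every real exponent `α > 1`: if some polynomial-time function maps every valid instance `I`
and every rational `ε > 0` to a rational number within `ε` of the optimal total flow time `OPT α I`
(in particular, if optimal or `ε`-optimal schedules can be computed efficiently), then every
language in NP is in P.
-/

set_option autoImplicit false

namespace Pool.Agent.Results.MP_04f351_lc.EfficientOnlyIfPeqNP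

open Pool.Agent.Helper82.Speed Pool.Agent.PolyTime

theorem result (α : ℝ) (hα : 1 < α) (A : (List (ℚ × ℚ) × ℚ) × ℚ → ℚ) (hA : PolyTime A)
    (happrox : ∀ (I : List (ℚ × ℚ) × ℚ) (ε : ℚ), Valid I → 0 < ε →
      |(A (I, ε) : ℝ) - OPT α I| ≤ ε) :
    ∀ L : Set (List Bool), InNP L → InP L := by
  intro L hL
  obtain ⟨N, B, h⟩ := algo_correct hα happrox
  have hP : InP Pool.Agent.PolyTime.PARTITION := ⟨algo A N B, polyTime_algo hA N B, h⟩
  exact InP.of_red (npHard_PARTITION L hL) hP

end Pool.Agent.Results.MP_04f351_lc.EfficientOnlyIfPeqNP
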